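import Pool.Agent.H419.InertStrong

set_option autoImplicit false

/-!
# Pythagorean triples in colourings given by the primes which are inert in a quadratic field

Let `D` be a nonzero integer. A finite colouring of the positive integers whose value at `n` depends
only on the part of `n` composed of the primes which do not split in `ℚ(√-D)` (more generally, which
does not change if `n` is multiplied by a product `u ≡ 1 (mod q)` of primes which split) has
monochromatic Pythagorean triples, for many `D`: if `D` or `-D` is a congruent number, and for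
`D = -2, ±10, ±19, 26, ±35`. The proof uses an identity: three of the four numbers `M`, `M + t`, `M - t`,
`M² + t²`, with `t = 2 D h² v`, are norms of the form `X² + D Y²` with `X ≡ 1`, `Y ≡ 0 (mod v)`, and so is
the fourth, and `2 M t = 4 D h² v M`, where `4 D h² v` can be a power of a fixed number.
-/

namespace Pool.Agent.Results.MP_0f91f8_co.InertColourings

/-- Positive integers `u ≡ 1 (mod q)` (for negative `D` also `u ≡ -1 (mod q)`) all of whose prime
factors `p` do not divide `2 D` and have `-D` as a square modulo `p`, that is, split in `ℚ(√-D)`. -/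
def SplitProd (D : ℤ) (q u : ℕ) : Prop :=
  0 < u ∧ ((q : ℤ) ∣ (u : ℤ) - 1 ∨ (D < 0 ∧ (q : ℤ) ∣ (u : ℤ) + 1)) ∧
    ∀ p : ℕ, p.Prime → p ∣ u → ¬ (p : ℤ) ∣ 2 * D ∧ ∃ s : ℤ, (p : ℤ) ∣ s ^ 2 + D

/-- Every finite colouring which does not change under multiplication by the numbers `SplitProd D q`,
for some `q ≥ 1`, has arbitrarily large monochromatic Pythagorean triples. -/
def Ramsey (D : ℤ) : Prop :=
  ∀ (κ : Type) [Finite κ] (q : ℕ) (c : ℕ → κ), 0 < q →
    (∀ n u : ℕ, 0 < n → SplitProd D q u → c (n * u) = c n) → ∀ K : ℕ,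
    ∃ x y z : ℕ, K < x ∧ K < y ∧ K < z ∧ x ^ 2 + y ^ 2 = z ^ 2 ∧ c x = c y ∧ c y = c z

/-- The same with a modulus that may depend on the number which is multiplied: the colouring `c` need
only satisfy `c (n u) = c n` for the `u` in `SplitProd D (q n)`, `u ≡ 1 (mod q n)`. -/
def RamseyLocal (D : ℤ) : Prop :=
  ∀ (κ : Type) [Finite κ] (q : ℕ) (c : ℕ → κ), 0 < q →
    (∀ n u : ℕ, 0 < n → SplitProd D (q * n) u → c (n * u) = c n) → ∀ K : ℕ,
    ∃ x y z : ℕ, K < x ∧ K < y ∧ K < z ∧ x ^ 2 + y ^ 2 = z ^ 2 ∧ c x = c y ∧ c y = c z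

/-- The numerical condition on `D`: a point on a certain K3 surface. -/
def Admissible (D : ℤ) : Prop :=
  D ≠ 0 ∧ ∃ f g h b₀ b₁ b₂ : ℤ, h * b₀ * b₁ * b₂ ≠ 0 ∧ b₀ ^ 2 = f ^ 2 - g ^ 2 - D * h ^ 2 ∧
    b₁ ^ 2 = b₀ ^ 2 - D * h ^ 2 - 2 * f * g ∧ b₂ ^ 2 = b₀ ^ 2 - D * h ^ 2 + 2 * f * g

theorem ramsey_of_admissible {D : ℤ} (hD : Admissible D) : Ramsey D := by
  intro κ _ q c hq hc K
  exact Pool.Agent.H419.InertPyth.main hD q hq c hc K

theorem wit {D : ℤ} (f g h b₀ b₁ b₂ : ℤ) (hD : D ≠ 0) (h0 : h * b₀ * b₁ * b₂ ≠ 0)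
    (h1 : b₀ ^ 2 = f ^ 2 - g ^ 2 - D * h ^ 2) (h2 : b₁ ^ 2 = b₀ ^ 2 - D * h ^ 2 - 2 * f * g)
    (h3 : b₂ ^ 2 = b₀ ^ 2 - D * h ^ 2 + 2 * f * g) : Ramsey D :=
  ramsey_of_admissible ⟨hD, f, g, h, b₀, b₁, b₂, h0, h1, h2, h3⟩

theorem local_of_congruent {D a b r s : ℤ} (hs : s ≠ 0) (hD : D ≠ 0)
    (h1 : a ^ 2 + b ^ 2 = r ^ 2) (h2 : a * b = 2 * D * s ^ 2) :
    RamseyLocal D ∧ RamseyLocal (-D) := by
  have hab : a * b ≠ 0 := by
    rw [h2]
    exact mul_ne_zero (mul_ne_zero two_ne_zero hD) (pow_ne_zero 2 hs)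
  have hr : r ≠ 0 := by
    rintro rfl
    apply hab
    have ha : a = 0 := by nlinarith [sq_nonneg a, sq_nonneg b]
    rw [ha, zero_mul]
  have key : ∀ c : ℤ, c ^ 2 = a ^ 2 → b ≠ c := by
    intro c hc hbc
    rw [hbc, hc] at h1
    have h3 : r.natAbs ^ 2 = 2 * a.natAbs ^ 2 := by
      zify
      rw [sq_abs, sq_abs]
      linarith
    have h6 : (a.natAbs : ℝ) ≠ 0 := by
      have := Int.natAbs_ne_zero.2 (left_ne_zero_of_mul hab)
      exact_mod_cast this
    have h5 : (r.natAbs : ℝ) ^ 2 = 2 * (a.natAbs : ℝ) ^ 2 := by exact_mod_cast h3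
    apply irrational_sqrt_two
    refine ⟨(r.natAbs : ℚ) / a.natAbs, ?_⟩
    push_cast
    rw [eq_comm, Real.sqrt_eq_iff_mul_self_eq (by norm_num) (by positivity)]
    field_simp
    linarith
  have hm : a - b ≠ 0 := fun h => key a rfl (by linarith)
  have hp : a + b ≠ 0 := fun h => key (-a) (by ring) (by linarith)
  constructor
  · intro κ _ q c hq hc K
    exact Pool.Agent.H419.InertPyth.main_strong (D := D) (f := a + b) (h := 2 * s) (b₀ := r)
      (b₁ := a - b) hD (mul_ne_zero (mul_ne_zero (mul_ne_zero two_ne_zero hs) hr) hm)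
      (by linear_combination -2 * h2 - h1) (by linear_combination h1 - 2 * h2) hp q hq c hc K
  · intro κ _ q c hq hc K
    exact Pool.Agent.H419.InertPyth.main_strong (D := -D) (f := a - b) (h := 2 * s) (b₀ := r)
      (b₁ := a + b) (neg_ne_zero.2 hD) (mul_ne_zero (mul_ne_zero (mul_ne_zero two_ne_zero hs) hr) hp)
      (by linear_combination 2 * h2 - h1) (by linear_combination h1 + 2 * h2) hm q hq c hc K

theorem SplitProd.weaken {D : ℤ} {q n u : ℕ} (h : SplitProd D (q * n) u) : SplitProd D q u := by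
  have hd : (q : ℤ) ∣ ((q * n : ℕ) : ℤ) := by exact_mod_cast (Dvd.intro _ rfl : q ∣ q * n)
  exact ⟨h.1, h.2.1.imp (fun h1 => hd.trans h1) (fun h1 => ⟨h1.1, hd.trans h1.2⟩), h.2.2⟩

theorem ramsey_of_local {D : ℤ} (h : RamseyLocal D) : Ramsey D := by
  intro κ _ q c hq hc K
  exact h κ q c hq (fun n u hn hu => hc n u hn hu.weaken) K

/-- (1) the condition `Admissible D` suffices; (2) the stronger statement `RamseyLocal` holds for `D`
and `-D` if `D` is a congruent number, the area `a b / (2 s ^ 2)` of a right triangle with rational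
sides `a / s, b / s, r / s`; (3) further values of `D`. -/
theorem result :
    (∀ D : ℤ, Admissible D → Ramsey D) ∧
    (∀ D a b r s : ℤ, D ≠ 0 → s ≠ 0 → a ^ 2 + b ^ 2 = r ^ 2 → a * b = 2 * D * s ^ 2 →
      RamseyLocal D ∧ RamseyLocal (-D) ∧ Ramsey D ∧ Ramsey (-D)) ∧
    (∀ D ∈ ({-2, 10, -10, 19, -19, 26, 35, -35} : Set ℤ), Ramsey D) := by
  refine ⟨fun D => ramsey_of_admissible, fun D a b r s hD hs h1 h2 => ?_, ?_⟩
  · obtain ⟨l1, l2⟩ := local_of_congruent hs hD h1 h2
    exact ⟨l1, l2, ramsey_of_local l1, ramsey_of_local l2⟩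
  · intro D hD
    simp only [Set.mem_insert_iff, Set.mem_singleton_iff] at hD
    rcases hD with rfl | rfl | rfl | rfl | rfl | rfl | rfl | rfl
    · exact wit 45 4 20 53 57 63 (by norm_num) (by norm_num) (by norm_num) (by norm_num) (by norm_num)
    · exact wit 355 132 6 329 119 449 (by norm_num) (by norm_num) (by norm_num) (by norm_num)
        (by norm_num)
    · exact wit 35 36 12 37 17 73 (by norm_num) (by norm_num) (by norm_num) (by norm_num) (by norm_num)
    · exact wit 130 9 15 112 77 103 (by norm_num) (by norm_num) (by norm_num) (by norm_num)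
        (by norm_num)
    · exact wit 7 2 2 11 13 15 (by norm_num) (by norm_num) (by norm_num) (by norm_num) (by norm_num)
    · exact wit 143 12 18 109 5 83 (by norm_num) (by norm_num) (by norm_num) (by norm_num)
        (by norm_num)
    · exact wit 10 1 1 8 3 7 (by norm_num) (by norm_num) (by norm_num) (by norm_num) (by norm_num)
    · exact wit 9 10 2 11 9 21 (by norm_num) (by norm_num) (by norm_num) (by norm_num) (by norm_num)

end Pool.Agent.Results.MP_0f91f8_co.InertColourings
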